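import Mathlib

set_option autoImplicit false

namespace Pool.Agent.Results.MP_058057_co.Strict

/-- Partitions of `m` into distinct parts, none divisible by 4 (zero for negative `m`). -/
def Q0 (m : ℤ) : ℤ :=
  if m < 0 then 0 else
    (((Finset.Icc 1 m.toNat).powerset.filter fun s =>
      ∑ i ∈ s, i = m.toNat ∧ ∀ i ∈ s, ¬ 4 ∣ i).card : ℤ)

open Classical in
noncomputable def xi (n : ℕ) : ℤ :=
  if n = 0 then 1 else if h : ∃ m : ℕ, n = 4 * m ^ 2 then 2 * (-1) ^ h.choose else 0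

def S (k n : ℕ) : ℤ :=
  ∑ j ∈ Finset.range (2 * k), (-1) ^ (j * (j + 1) / 2) * Q0 ((n : ℤ) - (j * (j + 1) / 2 : ℕ))

theorem result : ¬ ∀ n k : ℕ, 1 ≤ k → 0 ≤ (-1) ^ (k - 1) * (S k n - xi n) ∧
    (0 < (-1) ^ (k - 1) * (S k n - xi n) ↔ k * (2 * k + 1) ≤ n) := by
  intro h
  have h1 := ((h 7 1 le_rfl).2).2 (by norm_num)
  have h2 : xi 7 = 0 := by
    unfold xi
    rw [if_neg (by norm_num), dif_neg]
    rintro ⟨m, hm⟩
    omega
  have h3 : S 1 7 = 0 := by decide +kernel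
  rw [h2, h3] at h1
  norm_num at h1

end Pool.Agent.Results.MP_058057_co.Strict
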